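import Pool.Agent.H16.CX.Basic

/-!
Board cxs_modules, module FXK: fixed points of the stabilizers of finite sets.
-/

set_option autoImplicit false

open Set Topology Filter MeasureTheory

namespace Pool.Agent.H34.CXS

open Pool.Agent.H16.CX

attribute [local instance] Pool.Agent.H71.permTop

/-- the shift of an injection -/
def sh (k : ℕ) (b : ℕ ↪ ℕ) : ℕ ↪ ℕ where
  toFun i := if i < k then i else k + b (i - k)
  inj' := by
    intro i j hij
    by_cases hi : i < k <;> by_cases hj : j < k
    · simpa [hi, hj] using hij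
    · simp only [hi, hj, if_true, if_false] at hij
      omega
    · simp only [hi, hj, if_true, if_false] at hij
      omega
    · simp only [hi, hj, if_false] at hij
      have h1 : b (i - k) = b (j - k) := by omega
      have h2 := b.injective h1
      omega

lemma sh_lt (k : ℕ) (b : ℕ ↪ ℕ) (i : ℕ) (hi : i < k) : sh k b i = i := by
  show (if i < k then i else k + b (i - k)) = i
  rw [if_pos hi]

lemma sh_add (k : ℕ) (b : ℕ ↪ ℕ) (i : ℕ) : sh k b (k + i) = k + b i := by
  show (if k + i < k then k + i else k + b (k + i - k)) = k + b i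
  rw [if_neg (by omega), Nat.add_sub_cancel_left]

lemma ginv (g : Equiv.Perm ℕ) (x : ℕ) : g⁻¹ (g x) = x := g.symm_apply_apply x

lemma invg (g : Equiv.Perm ℕ) (x : ℕ) : g (g⁻¹ x) = x := g.apply_symm_apply x

lemma vs_inv {k : ℕ} {g : Equiv.Perm ℕ} (hg : g ∈ VS k) : g⁻¹ ∈ VS k := by
  intro i hi
  rw [Equiv.Perm.inv_eq_iff_eq]
  exact (hg i hi).symm

lemma vs_le {k : ℕ} {g : Equiv.Perm ℕ} (hg : g ∈ VS k) (i : ℕ) : k ≤ g (k + i) := by
  by_contra hcon
  have h1 : g (k + i) < k := by omega
  have h2 := hg _ h1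
  have h3 := g.injective h2
  omega

/-- a permutation that fixes the numbers below `k` is a shift -/
lemma exists_shift {k : ℕ} {g : Equiv.Perm ℕ} (hg : g ∈ VS k) :
    ∃ g' : Equiv.Perm ℕ, ∀ i, g (k + i) = k + g' i := by
  have h1 := fun i => vs_le hg i
  have h2 := fun i => vs_le (vs_inv hg) i
  refine ⟨⟨fun i => g (k + i) - k, fun i => g⁻¹ (k + i) - k, ?_, ?_⟩, ?_⟩
  · intro i
    show g⁻¹ (k + (g (k + i) - k)) - k = i
    rw [Nat.add_sub_cancel' (h1 i), ginv]
    omega
  · intro i
    show g (k + (g⁻¹ (k + i) - k)) - k = i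
    rw [Nat.add_sub_cancel' (h2 i), invg]
    omega
  · intro i
    show g (k + i) = k + (g (k + i) - k)
    have := h1 i
    omega

theorem pf_fxk : T_SHF → T_CCT → T_FIX → T_FXK := by
  intro hSHF hCCT hFIX X _ _ _ _ R k Z hZc hZn hZi
  classical
  obtain ⟨R', hR'⟩ := hSHF X R k
  have hInv : InvK R' 0 Z := by
    intro b _ x hx
    rw [hR' b (sh k b) (fun i hi => sh_lt k b i hi) (fun i => sh_add k b i) x]
    exact hZi (sh k b) (fun i hi => sh_lt k b i hi) x hx
  have hkey : ∀ g ∈ VS k, ∃ g' : Equiv.Perm ℕ, ∀ x, R'.res (pe g') x = R.res (pe g) x := by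
    intro g hg
    obtain ⟨g', hg'⟩ := exists_shift hg
    exact ⟨g', fun x => hR' (pe g') (pe g) (fun i hi => hg i hi) (fun i => hg' i) x⟩
  rcases hFIX X R' Z hZc hZn hInv with ⟨x, hx, hfix⟩ | ⟨f, hf, hne⟩
  · left
    refine ⟨x, hx, fun g hg => ?_⟩
    obtain ⟨g', hg'⟩ := hkey g hg
    rw [← hg' x]
    exact hfix g'
  · right
    refine hCCT X R f hf fun s => ?_
    have hG : ∀ t : ℕ → Bool, ∃ g : Equiv.Perm ℕ, Eqv R (f s) (f t) → R.res (pe g) (f s) = f t := by
      intro t
      by_cases h : Eqv R (f s) (f t)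
      · obtain ⟨g, hg⟩ := h
        exact ⟨g, fun _ => hg⟩
      · exact ⟨1, fun h' => absurd h' h⟩
    choose G hG using hG
    have hinj : InjOn (fun t => fun i : Fin k => G t i) {t | Eqv R (f s) (f t)} := by
      intro t ht u hu htu
      by_contra hcon
      have h1 : ∀ i < k, G t i = G u i := fun i hi => congrFun htu ⟨i, hi⟩
      have h2 : (G t)⁻¹ * G u ∈ VS k := by
        intro i hi
        show (G t)⁻¹ (G u i) = i
        rw [← h1 i hi, ginv]
      obtain ⟨g', hg'⟩ := hkey _ h2
      refine hne t u hcon ⟨g', ?_⟩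
      rw [hg' (f t), res_mul]
      have h3 : R.res (pe (G t)⁻¹) (f t) = f s := by
        rw [← hG t ht]
        exact res_inv_res R (G t) (f s)
      rw [h3]
      exact hG u hu
    exact Set.countable_of_injective_of_countable_image hinj (Set.to_countable _)

end Pool.Agent.H34.CXS
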